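import Pool.Agent.helper13.MS.SS1
import Pool.Agent.helper14.MS.HDV

/-!
# Row ms:SS2 (MP_07c750): Schur's bound over the bad set
-/

set_option autoImplicit false

open scoped MatrixGroups ContDiff Topology UpperHalfPlane ComplexConjugate
open UpperHalfPlane MeasureTheory Filter Set

namespace Pool.Agent.MS

open Pool.Agent.RS

theorem SS2_proof (hHDV : HDV_stmt) (hDYA : DYA_stmt) (hOSC : OSC_stmt) (hGKF : GKF_stmt) (hGLC : GLC_stmt) : SS2_stmt := by
  intro Γ F h ε β0 α0 β α hΓ hF hh h01 hε hβ0 hα0 hβ hα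
  obtain ⟨C1, hC1, h1⟩ := hOSC β0 α0 β α hβ0 hα0 hβ hα
  obtain ⟨θ, C2, hθ, hC2, h2⟩ := hHDV Γ F h ε hΓ hF hh h01 hε
  refine ⟨θ, 16 * C1 * C2, hθ, by positivity, ?_⟩
  intro T r g hT hr
  have hE : 0 < Real.exp (-T) := Real.exp_pos _
  have hE2 : 0 < Real.exp (-(T / 2)) := Real.exp_pos _
  have hlam : 0 < Real.exp (-T) * r := mul_pos hE (by linarith)
  have hS : MeasurableSet {k : SL(2, ℝ) | g * k⁻¹ ∈ Dn h ((∫ z in F, h z) / (volume F).toReal - ε) T} := by
    have hc : Continuous fun k : SL(2, ℝ) => HDV_E h T (g * k⁻¹) :=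
      (HDV_cont hGLC h hh.1 T).comp (continuous_const.mul continuous_inv)
    exact (isOpen_lt hc continuous_const).measurableSet
  have key := SS1_one hDYA (fun k => ‖gk r (pc (st (-T) β0) α0) (pc β α) k‖) _
    (C1 * Real.exp (-(T / 2))) 0 (C2 * Real.exp (-(θ * T))) (Real.exp (-T) * r) hS
    (by positivity) le_rfl (by positivity) hlam ?_ ?_ ?_
  · refine key.trans (le_of_eq ?_)
    rw [← ENNReal.ofReal_mul (by positivity)]
    have e1 : Real.exp (T / 2) = Real.exp (-(T / 2)) * Real.exp T := by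
      rw [← Real.exp_add]
      ring_nf
    have e2 : C2 * Real.exp (-(θ * T)) / (Real.exp (-T) * r) = C2 * Real.exp (-(θ * T)) * Real.exp T / r := by
      rw [Real.exp_neg T]
      field_simp
    rw [e1, zero_add, e2]
    congr 1
    ring
  · intro k
    have := h1 T r k hT hr
    rw [mul_one_div]
    exact this
  · intro k hk
    exact (hGKF β0 α0 β α T r k hβ0 hα0 hβ hα hT hr).1 (fun h0 => hk (by
      change ‖gk r (pc (st (-T) β0) α0) (pc β α) k‖ = 0
      rw [h0, norm_zero]))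
  · intro ρ hρ
    rw [zero_add]
    exact h2 T ρ g hT hρ

end Pool.Agent.MS
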